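import Mathlib
import Pool.Graph.R_seed8.Results.MP_60922f_co.FourClasses

set_option autoImplicit false

namespace Pool.Agent.Results.MP_60922f_co.EvenOrderPrimes

open Filter
open Pool.Agent.Results.MP_60922f_co.FourClasses (vv oddPart hh Good Good.facts constV)

/-- `q` is an odd prime modulo which `2` has even multiplicative order. -/
def EvenOrder (q : ℕ) : Prop := q.Prime ∧ q ≠ 2 ∧ Even (orderOf (2 : ZMod q))

theorem zpow_mem_sq {G : Type*} [CommGroup G] (t : G) (ht : Even (orderOf t)) (k : ℤ) :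
    t ^ k ∈ Subgroup.zpowers (t ^ 2) ↔ Even k := by
  constructor
  · rintro ⟨m, hm⟩
    have h1 : t ^ (2 * m - k) = 1 := by
      have h2 : (t ^ 2) ^ m = t ^ (2 * m) := by
        rw [← zpow_natCast, ← zpow_mul]
        norm_num
      rw [zpow_sub, ← h2]
      change (t ^ 2) ^ m = t ^ k at hm
      rw [hm]
      simp
    have h3 := (orderOf_dvd_iff_zpow_eq_one).2 h1
    have h4 : (2 : ℤ) ∣ (orderOf t : ℤ) := by
      exact_mod_cast even_iff_two_dvd.1 ht
    have h5 : (2 : ℤ) ∣ 2 * m - k := h4.trans h3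
    have h6 : (2 : ℤ) ∣ k := by omega
    exact even_iff_two_dvd.2 h6
  · rintro ⟨m, rfl⟩
    refine ⟨m, ?_⟩
    change (t ^ 2) ^ m = t ^ (m + m)
    rw [← zpow_natCast, ← zpow_mul]
    congr 1
    push_cast
    ring

theorem flip_group {G : Type*} [CommGroup G] (t : G) (ht : Even (orderOf t)) :
    ∃ g : G → Prop, ∀ u, (g (t * u) ↔ ¬ g u) := by
  refine ⟨fun u => (Quotient.out (QuotientGroup.mk u : G ⧸ Subgroup.zpowers t))⁻¹ * u ∈
    Subgroup.zpowers (t ^ 2), ?_⟩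
  intro u
  have h1 : (QuotientGroup.mk (t * u) : G ⧸ Subgroup.zpowers t) = QuotientGroup.mk u := by
    rw [QuotientGroup.eq]
    refine ⟨-1, ?_⟩
    simp
  simp only [h1]
  generalize hr : Quotient.out (QuotientGroup.mk u : G ⧸ Subgroup.zpowers t) = r
  have h2 : r⁻¹ * u ∈ Subgroup.zpowers t := by
    rw [← QuotientGroup.eq, ← hr]
    exact Quotient.out_eq _
  obtain ⟨k, hk⟩ := h2
  change t ^ k = r⁻¹ * u at hk
  have h3 : r⁻¹ * (t * u) = t ^ (k + 1) := by
    rw [zpow_add, hk, zpow_one]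
    rw [mul_left_comm, mul_comm t]
  rw [h3, ← hk, zpow_mem_sq t ht, zpow_mem_sq t ht]
  exact Int.even_add_one

theorem exists_flip {q : ℕ} (h : EvenOrder q) :
    ∃ f : ZMod q → Prop, ∀ u : ZMod q, u ≠ 0 → (f (2 * u) ↔ ¬ f u) := by
  obtain ⟨hq, h2, he⟩ := h
  have : Fact q.Prime := ⟨hq⟩
  have h20 : (2 : ZMod q) ≠ 0 := by
    intro h0
    have h3 : ((2 : ℕ) : ZMod q) = 0 := by exact_mod_cast h0
    rw [ZMod.natCast_eq_zero_iff] at h3
    have := (Nat.prime_dvd_prime_iff_eq hq Nat.prime_two).1 h3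
    exact h2 this
  have he' : Even (orderOf (Units.mk0 (2 : ZMod q) h20)) := by
    rw [← orderOf_units]
    exact he
  obtain ⟨g, hg⟩ := flip_group (Units.mk0 (2 : ZMod q) h20) he'
  refine ⟨fun u => ∃ hu : u ≠ 0, g (Units.mk0 u hu), ?_⟩
  intro u hu
  have h2u : 2 * u ≠ 0 := mul_ne_zero h20 hu
  have e : Units.mk0 (2 * u) h2u = Units.mk0 2 h20 * Units.mk0 u hu := by
    ext
    simp
  constructor
  · rintro ⟨_, h5⟩ ⟨_, h6⟩
    rw [e] at h5
    exact (hg _).1 h5 h6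
  · intro h5
    refine ⟨h2u, ?_⟩
    rw [e]
    apply (hg _).2
    intro h6
    exact h5 ⟨hu, h6⟩

/-- The quantity `n ^ (q - 1) - 4 ^ (q - 1)`. -/
def NN (q n : ℕ) : ℕ := n ^ (q - 1) - 4 ^ (q - 1)

/-- The last nonzero base `q` digit of `n ^ (q - 1) - 4 ^ (q - 1)`. -/
def dg (q n : ℕ) : ZMod q := ((NN q n / q ^ padicValNat q (NN q n) : ℕ) : ZMod q)

/-- The least odd prime not dividing `n` modulo which `2` has even order. -/
noncomputable def PP (n : ℕ) : ℕ := sInf {q | EvenOrder q ∧ ¬ q ∣ n}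

open Classical in
/-- A two-valued function on the residues modulo `q` that changes under doubling. -/
noncomputable def fl (q : ℕ) : ZMod q → Prop :=
  if h : EvenOrder q then Classical.choose (exists_flip h) else fun _ => True

/-- One class of the colouring. -/
def Col : Set ℕ := {n | n % 2 = 1 ∨ (n % 8 = 4 ∧ hh n % 2 = 0) ∨
  (8 ∣ n ∧ fl (PP n) (dg (PP n) n))}

theorem fl_flip {q : ℕ} (h : EvenOrder q) {u : ZMod q} (hu : u ≠ 0) : (fl q (2 * u) ↔ ¬ fl q u) := by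
  unfold fl
  rw [dif_pos h]
  exact Classical.choose_spec (exists_flip h) u hu

theorem PP_eq {q n : ℕ} (hq : EvenOrder q) (hn : ¬ q ∣ n) (h : ∀ r, r < q → EvenOrder r → r ∣ n) :
    PP n = q := by
  unfold PP
  apply le_antisymm
  · exact Nat.sInf_le ⟨hq, hn⟩
  · have hm := Nat.sInf_mem (s := {q | EvenOrder q ∧ ¬ q ∣ n}) ⟨q, hq, hn⟩
    by_contra hc
    push Not at hc
    exact hm.2 (h _ hc hm.1)

theorem dg_eq {q n e : ℕ} {w : ℤ} (hq : q.Prime) (hn : 4 ≤ n)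
    (h : (n : ℤ) ^ (q - 1) - 4 ^ (q - 1) = (q : ℤ) ^ e * w) (hw : ¬ (q : ℤ) ∣ w) :
    dg q n = (w : ZMod q) := by
  have : Fact q.Prime := ⟨hq⟩
  have hle : 4 ^ (q - 1) ≤ n ^ (q - 1) := Nat.pow_le_pow_left hn _
  have h1 : ((NN q n : ℕ) : ℤ) = (q : ℤ) ^ e * w := by
    unfold NN
    rw [Nat.cast_sub hle]
    push_cast
    exact h
  have hqe : (0 : ℤ) < (q : ℤ) ^ e := by
    have : (0 : ℤ) < q := by exact_mod_cast hq.pos
    positivity
  have hw0 : 0 ≤ w := by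
    by_contra hc
    push Not at hc
    have h2 : (q : ℤ) ^ e * w < 0 := mul_neg_of_pos_of_neg hqe hc
    have h3 : (0 : ℤ) ≤ ((NN q n : ℕ) : ℤ) := Int.natCast_nonneg _
    omega
  lift w to ℕ using hw0
  have hW : ¬ q ∣ w := by
    intro hc
    exact hw (by exact_mod_cast hc)
  have hw1 : w ≠ 0 := by
    rintro rfl
    exact hW (dvd_zero _)
  have h4 : NN q n = q ^ e * w := by exact_mod_cast h1
  have h5 : padicValNat q (NN q n) = e := by
    rw [h4, padicValNat.mul (pow_ne_zero _ hq.ne_zero) hw1, padicValNat.prime_pow,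
      padicValNat.eq_zero_of_not_dvd hW]
    rfl
  unfold dg
  rw [h5, h4, Nat.mul_div_cancel_left _ (pow_pos hq.pos _)]
  simp

theorem binom (x y : ℤ) (n : ℕ) : ∃ r : ℤ, (x + y) ^ (n + 1) =
    x ^ (n + 1) + (n + 1) * x ^ n * y + y ^ 2 * r := by
  induction n with
  | zero => exact ⟨0, by ring⟩
  | succ n ih =>
    obtain ⟨r, hr⟩ := ih
    refine ⟨(n + 1) * x ^ n + x * r + y * r, ?_⟩
    rw [pow_succ, hr]
    push_cast
    ring

/-- `N` is `q ^ k` times an integer with residue `u` modulo `q`. -/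
def R (q : ℕ) (N : ℤ) (k : ℕ) (u : ZMod q) : Prop :=
  ∃ w : ℤ, N = (q : ℤ) ^ k * w ∧ (w : ZMod q) = u

theorem R_congr {q k : ℕ} {N N' : ℤ} {u : ZMod q} (h : R q N k u)
    (hd : (q : ℤ) ^ (k + 1) ∣ N' - N) : R q N' k u := by
  obtain ⟨w, h1, h2⟩ := h
  obtain ⟨c, hc⟩ := hd
  refine ⟨w + q * c, ?_, ?_⟩
  · have : N' = N + (q : ℤ) ^ (k + 1) * c := by linarith
    rw [this, h1]
    ring
  · push_cast
    rw [h2]
    simp

theorem R_mul {q k : ℕ} {N : ℤ} {u : ZMod q} (c : ℤ) (h : R q N k u) :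
    R q (c * N) k (c * u) := by
  obtain ⟨w, h1, h2⟩ := h
  refine ⟨c * w, ?_, ?_⟩
  · rw [h1]
    ring
  · push_cast
    rw [h2]

theorem R_dg {q n k : ℕ} {u : ZMod q} (hq : q.Prime) (hn : 4 ≤ n)
    (h : R q ((n : ℤ) ^ (q - 1) - 4 ^ (q - 1)) k u) (hu : u ≠ 0) : dg q n = u := by
  obtain ⟨w, h1, h2⟩ := h
  rw [dg_eq hq hn h1 ?_, h2]
  intro hc
  apply hu
  rw [← h2]
  exact (ZMod.intCast_zmod_eq_zero_iff_dvd w q).2 hc

theorem val_unique {q k e : ℕ} {w c : ℤ} (hq : q.Prime) (h : (q : ℤ) ^ k * w = (q : ℤ) ^ e * c)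
    (hw : ¬ (q : ℤ) ∣ w) (hc : ¬ (q : ℤ) ∣ c) : k = e ∧ w = c := by
  have hq0 : (q : ℤ) ≠ 0 := by exact_mod_cast hq.ne_zero
  have hk : k = e := by
    rcases lt_trichotomy k e with hlt | heq | hgt
    · exfalso
      obtain ⟨f, rfl⟩ : ∃ f, e = k + (f + 1) := ⟨e - k - 1, by omega⟩
      rw [pow_add, mul_assoc] at h
      have h1 := mul_left_cancel₀ (pow_ne_zero k hq0) h
      apply hw
      rw [h1, pow_succ]
      exact ⟨(q : ℤ) ^ f * c, by ring⟩
    · exact heq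
    · exfalso
      obtain ⟨f, rfl⟩ : ∃ f, k = e + (f + 1) := ⟨k - e - 1, by omega⟩
      rw [pow_add, mul_assoc] at h
      have h1 := mul_left_cancel₀ (pow_ne_zero e hq0) h
      apply hc
      rw [← h1, pow_succ]
      exact ⟨(q : ℤ) ^ f * w, by ring⟩
  subst hk
  exact ⟨rfl, mul_left_cancel₀ (pow_ne_zero k hq0) h⟩

theorem two_ne {q : ℕ} (hq : q.Prime) (h2 : q ≠ 2) : (2 : ZMod q) ≠ 0 := by
  intro h0
  have h3 : ((2 : ℕ) : ZMod q) = 0 := by exact_mod_cast h0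
  rw [ZMod.natCast_eq_zero_iff] at h3
  exact h2 ((Nat.prime_dvd_prime_iff_eq hq Nat.prime_two).1 h3)

theorem fermat {q m : ℕ} (hq : q.Prime) (hm : q = m + 2) {x : ZMod q} (hx : x ≠ 0) :
    x ^ (m + 1) = 1 := by
  have : Fact q.Prime := ⟨hq⟩
  have h := ZMod.pow_card_sub_one_eq_one hx
  have e : q - 1 = m + 1 := by omega
  rwa [e] at h

theorem pairA {q m k : ℕ} (hq : q.Prime) (hm : q = m + 2) (h2 : q ≠ 2) {x y : ℤ} {u : ZMod q}
    (hx : (x : ZMod q) ≠ 0) (hA : R q (x ^ (m + 1) - 2 ^ (m + 1)) k u)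
    (hd : (q : ℤ) ^ (k + 1) ∣ y - x) :
    R q ((x + y) ^ (m + 1) - 4 ^ (m + 1)) k u ∧
    R q ((x * y) ^ (m + 1) - 4 ^ (m + 1)) k (2 * u) := by
  have f2 := fermat hq hm (two_ne hq h2)
  have fx := fermat hq hm hx
  have e4 : (4 : ℤ) ^ (m + 1) = 2 ^ (m + 1) * 2 ^ (m + 1) := by
    rw [← mul_pow]
    norm_num
  constructor
  · have h1 : R q (2 ^ (m + 1) * (x ^ (m + 1) - 2 ^ (m + 1))) k u := by
      have := R_mul (2 ^ (m + 1)) hA
      push_cast at this
      rwa [f2, one_mul] at this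
    apply R_congr h1
    have h3 : (x + y) ^ (m + 1) - 4 ^ (m + 1) - 2 ^ (m + 1) * (x ^ (m + 1) - 2 ^ (m + 1)) =
        (x + y) ^ (m + 1) - (2 * x) ^ (m + 1) := by
      rw [e4, mul_pow]
      ring
    rw [h3]
    refine dvd_trans ?_ (sub_dvd_pow_sub_pow _ _ _)
    have h4 : x + y - 2 * x = y - x := by ring
    rw [h4]
    exact hd
  · have h1 : R q ((x ^ (m + 1) + 2 ^ (m + 1)) * (x ^ (m + 1) - 2 ^ (m + 1))) k (2 * u) := by
      have := R_mul (x ^ (m + 1) + 2 ^ (m + 1)) hA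
      push_cast at this
      rw [f2, fx] at this
      norm_num at this
      exact this
    apply R_congr h1
    have h3 : (x * y) ^ (m + 1) - 4 ^ (m + 1) -
        (x ^ (m + 1) + 2 ^ (m + 1)) * (x ^ (m + 1) - 2 ^ (m + 1)) =
        (x * y) ^ (m + 1) - (x * x) ^ (m + 1) := by
      rw [e4, mul_pow x x]
      ring
    rw [h3]
    refine dvd_trans ?_ (sub_dvd_pow_sub_pow _ _ _)
    have h4 : x * y - x * x = x * (y - x) := by ring
    rw [h4]
    exact Dvd.dvd.mul_left hd x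

theorem pairB {q m k : ℕ} (hq : q.Prime) (hm : q = m + 2) (h2 : q ≠ 2) {x y : ℤ} {u : ZMod q}
    (hy : (y : ZMod q) ≠ 0) (hxy : (q : ℤ) ∣ x - y)
    (hA : R q (x ^ (m + 1) - 2 ^ (m + 1)) k u) (hu : u ≠ 0)
    (hB : (q : ℤ) ^ (k + 1) ∣ y ^ (m + 1) - 2 ^ (m + 1)) :
    ∃ v, 2 * v = u ∧ R q ((x + y) ^ (m + 1) - 4 ^ (m + 1)) k v ∧
      R q ((x * y) ^ (m + 1) - 4 ^ (m + 1)) k u := by
  have : Fact q.Prime := ⟨hq⟩
  have f2 := fermat hq hm (two_ne hq h2)
  have fy := fermat hq hm hy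
  have e4 : (4 : ℤ) ^ (m + 1) = 2 ^ (m + 1) * 2 ^ (m + 1) := by
    rw [← mul_pow]
    norm_num
  have hm1 : ((m : ZMod q) + 1) = -1 := by
    have h0 : ((m + 2 : ℕ) : ZMod q) = 0 := by
      rw [ZMod.natCast_eq_zero_iff]
      exact ⟨1, by omega⟩
    push_cast at h0
    linear_combination h0
  have hqz : ((q : ℤ) : ZMod q) = 0 := by simp
  have hcast : ∀ w : ℤ, (w : ZMod q) ≠ 0 → ¬ (q : ℤ) ∣ w := fun w hw hc =>
    hw ((ZMod.intCast_zmod_eq_zero_iff_dvd w q).2 hc)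
  obtain ⟨w, hw1, hw2⟩ := id hA
  obtain ⟨b, hb⟩ := id hB
  obtain ⟨d, hdx⟩ : ∃ d, x = y + d := ⟨x - y, by ring⟩
  have hqd : (q : ℤ) ∣ d := by
    have : x - y = d := by linarith
    rwa [this] at hxy
  have hyy : (y : ZMod q) ^ m ≠ 0 := pow_ne_zero m hy
  have hwb : ((w - q * b : ℤ) : ZMod q) = u := by
    push_cast
    rw [hw2]
    simp
  have hdiff : x ^ (m + 1) - y ^ (m + 1) = (q : ℤ) ^ k * (w - q * b) := by
    have e1 : (q : ℤ) ^ (k + 1) * b = (q : ℤ) ^ k * (q * b) := by ring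
    rw [mul_sub, ← hw1, ← e1, ← hb]
    ring
  have hd0 : d ≠ 0 := by
    rintro rfl
    rw [add_zero] at hdx
    rw [hdx, sub_self] at hdiff
    have hq0 : (q : ℤ) ^ k ≠ 0 := pow_ne_zero k (by exact_mod_cast hq.ne_zero)
    have h5 : w - q * b = 0 := by
      rcases mul_eq_zero.1 hdiff.symm with h | h
      · exact absurd h hq0
      · exact h
    apply hu
    rw [← hwb, h5]
    simp
  have hfin : FiniteMultiplicity (q : ℤ) d := by
    rw [Int.finiteMultiplicity_iff]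
    refine ⟨?_, hd0⟩
    simpa using hq.ne_one
  obtain ⟨z, hz1, hz2⟩ := hfin.exists_eq_pow_mul_and_not_dvd
  generalize multiplicity (q : ℤ) d = e at hz1
  obtain ⟨f, rfl⟩ : ∃ f, e = f + 1 := by
    rcases Nat.eq_zero_or_pos e with h | h
    · exfalso
      rw [h, pow_zero, one_mul] at hz1
      exact hz2 (hz1 ▸ hqd)
    · exact ⟨e - 1, by omega⟩
  obtain ⟨r, hr⟩ := binom y d m
  have hdiff2 : x ^ (m + 1) - y ^ (m + 1) =
      (q : ℤ) ^ (f + 1) * (z * ((m + 1) * y ^ m + d * r)) := by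
    rw [hdx, hr]
    have : (q : ℤ) ^ (f + 1) * (z * ((m + 1) * y ^ m + d * r)) =
        ((q : ℤ) ^ (f + 1) * z) * ((m + 1) * y ^ m + d * r) := by ring
    rw [this, ← hz1]
    ring
  have hdz : (d : ZMod q) = 0 := (ZMod.intCast_zmod_eq_zero_iff_dvd d q).2 hqd
  have hzz : (z : ZMod q) ≠ 0 := fun hc => hz2 ((ZMod.intCast_zmod_eq_zero_iff_dvd z q).1 hc)
  have hco : ((z * ((m + 1) * y ^ m + d * r) : ℤ) : ZMod q) = -(z * y ^ m) := by
    push_cast
    rw [hm1, hdz]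
    ring
  obtain ⟨hk, hwz⟩ := val_unique hq (hdiff.symm.trans hdiff2)
    (hcast _ (by rw [hwb]; exact hu))
    (hcast _ (by
      rw [hco]
      exact neg_ne_zero.2 (mul_ne_zero hzz hyy)))
  have huz : u = -(z * y ^ m) := by
    rw [← hco, ← hwz, hwb]
  refine ⟨-(2 ^ m * y ^ m * z), ?_, ?_, ?_⟩
  · rw [huz]
    have : (2 : ZMod q) * (2 ^ m) = 1 := by
      rw [← pow_succ']
      exact f2
    linear_combination (-(y : ZMod q) ^ m * z) * this
  · obtain ⟨r', hr'⟩ := binom (2 * y) d m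
    refine ⟨2 ^ (m + 1) * (q * b) + (m + 1) * (2 * y) ^ m * z + (q : ℤ) ^ k * z ^ 2 * r', ?_, ?_⟩
    · have e1 : x + y = 2 * y + d := by rw [hdx]; ring
      rw [e1, hr']
      have e2 : (2 * y) ^ (m + 1) = 2 ^ (m + 1) * (2 ^ (m + 1) + (q : ℤ) ^ (k + 1) * b) := by
        rw [mul_pow]
        have : y ^ (m + 1) = 2 ^ (m + 1) + (q : ℤ) ^ (k + 1) * b := by linarith
        rw [this]
      have e3 : d = (q : ℤ) ^ k * z := by rw [hz1, hk]
      rw [e2, e4, e3]
      ring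
    · push_cast
      rw [hm1]
      have h0 : ((q : ZMod q)) ^ k = 0 := by
        rw [hk]
        simp
      rw [h0]
      simp only [CharP.cast_eq_zero]
      rw [mul_pow]
      ring
  · have h1 : R q (2 ^ (m + 1) * (x ^ (m + 1) - 2 ^ (m + 1))) k u := by
      have := R_mul (2 ^ (m + 1)) hA
      push_cast at this
      rwa [f2, one_mul] at this
    apply R_congr h1
    have h3 : (x * y) ^ (m + 1) - 4 ^ (m + 1) - 2 ^ (m + 1) * (x ^ (m + 1) - 2 ^ (m + 1)) =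
        x ^ (m + 1) * (y ^ (m + 1) - 2 ^ (m + 1)) := by
      rw [e4, mul_pow]
      ring
    rw [h3]
    exact Dvd.dvd.mul_left hB _

theorem pigeon {T : Set ℕ} (hT : T.Infinite) (f : ℕ → ℕ) (N : ℕ) (hf : ∀ i ∈ T, f i < N) :
    ∃ v, v < N ∧ {i | i ∈ T ∧ f i = v}.Infinite := by
  by_contra hcon
  push Not at hcon
  apply hT
  have h1 : T ⊆ ⋃ v ∈ (Finset.range N : Set ℕ), {i | i ∈ T ∧ f i = v} := by
    intro i hi
    simp only [Set.mem_iUnion]
    exact ⟨f i, by simpa using hf i hi, hi, rfl⟩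
  refine Set.Finite.subset (Set.Finite.biUnion (Finset.finite_toSet _) ?_) h1
  intro v hv
  have hv' : v < N := by simpa using hv
  exact hcon v hv'

theorem exists_rep {q m n : ℕ} (hq : q.Prime) (hm : q = m + 2) (h2 : q ≠ 2) (hn : 3 ≤ n)
    (hqn : ¬ q ∣ n) : ∃ k : ℕ, ∃ u : ZMod q, u ≠ 0 ∧ 1 ≤ k ∧
      R q ((n : ℤ) ^ (m + 1) - 2 ^ (m + 1)) k u := by
  have : Fact q.Prime := ⟨hq⟩
  have hlt : 2 ^ (m + 1) < n ^ (m + 1) := Nat.pow_lt_pow_left (by omega) (by omega)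
  obtain ⟨N, hN⟩ : ∃ N, n ^ (m + 1) = 2 ^ (m + 1) + N := ⟨n ^ (m + 1) - 2 ^ (m + 1), by omega⟩
  have hN0 : N ≠ 0 := by omega
  have hNz : (n : ℤ) ^ (m + 1) - 2 ^ (m + 1) = N := by
    have : (n : ℤ) ^ (m + 1) = 2 ^ (m + 1) + N := by exact_mod_cast hN
    linarith
  have hnz : (n : ZMod q) ≠ 0 := by
    intro hc
    exact hqn ((ZMod.natCast_eq_zero_iff n q).1 hc)
  have hqN : q ∣ N := by
    rw [← ZMod.natCast_eq_zero_iff]
    have h3 : ((n : ZMod q)) ^ (m + 1) = 2 ^ (m + 1) + N := by exact_mod_cast congrArg _ hN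
    rw [fermat hq hm hnz, fermat hq hm (two_ne hq h2)] at h3
    linear_combination -h3
  obtain ⟨w, hw⟩ := (pow_padicValNat_dvd : q ^ padicValNat q N ∣ N)
  refine ⟨padicValNat q N, ((w : ℤ) : ZMod q), ?_, one_le_padicValNat_of_dvd hN0 hqN, w, ?_, rfl⟩
  · intro hc
    apply pow_succ_padicValNat_not_dvd (p := q) hN0
    have h4 : (q : ℤ) ∣ (w : ℤ) := (ZMod.intCast_zmod_eq_zero_iff_dvd _ q).1 hc
    have h5 : q ∣ w := by exact_mod_cast h4
    obtain ⟨c, rfl⟩ := h5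
    refine ⟨c, ?_⟩
    rw [pow_succ]
    calc N = q ^ padicValNat q N * (q * c) := hw
      _ = _ := by ring
  · rw [hNz]
    exact_mod_cast hw

theorem pair_exists {q : ℕ} (hq : EvenOrder q) {T : Set ℕ} (hT : T.Infinite) {a : ℕ → ℕ}
    (ha : StrictMono a) (hTq : ∀ i ∈ T, ¬ q ∣ a i) :
    ∃ i ∈ T, ∃ j ∈ T, i < j ∧ a i ≡ a j [MOD 8] ∧ ¬ q ∣ a i + a j ∧
      (fl q (dg q (a i * a j)) ↔ ¬ fl q (dg q (a i + a j))) := by
  obtain ⟨hqp, h2, he⟩ := id hq
  have : Fact q.Prime := ⟨hqp⟩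
  obtain ⟨m, hm⟩ : ∃ m, q = m + 2 := ⟨q - 2, by have := hqp.two_le; omega⟩
  have hqm : q - 1 = m + 1 := by omega
  have hge : ∀ i, i ≤ a i := fun i => ha.le_apply
  have hT1 : (T \ {i | i < 4}).Infinite := hT.sdiff (Set.finite_lt_nat 4)
  obtain ⟨r, -, hT2⟩ := pigeon hT1 (fun i => a i % (8 * q)) (8 * q)
    (fun i _ => Nat.mod_lt _ (by have := hqp.pos; omega))
  have hrep : ∀ i, ∃ k : ℕ, ∃ u : ZMod q, i ∈ T ∧ 4 ≤ i → u ≠ 0 ∧ 1 ≤ k ∧
      R q ((a i : ℤ) ^ (m + 1) - 2 ^ (m + 1)) k u := by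
    intro i
    by_cases hi : i ∈ T ∧ 4 ≤ i
    · obtain ⟨k, u, h⟩ := exists_rep hqp hm h2 (n := a i) (by have := hge i; omega) (hTq i hi.1)
      exact ⟨k, u, fun _ => h⟩
    · exact ⟨0, 0, fun h => absurd h hi⟩
  choose kk uu hku using hrep
  set T2 := {i | i ∈ T \ {i | i < 4} ∧ a i % (8 * q) = r} with hT2def
  have hmem : ∀ i ∈ T2, i ∈ T ∧ 4 ≤ i := by
    intro i hi
    exact ⟨hi.1.1, by have := hi.1.2; simp only [Set.mem_ofPred_eq, not_lt] at this; exact this⟩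
  have hcong : ∀ i ∈ T2, ∀ j ∈ T2, a i ≡ a j [MOD 8 * q] := by
    intro i hi j hj
    exact hi.2.trans hj.2.symm
  have hnz : ∀ i ∈ T2, ((a i : ℤ) : ZMod q) ≠ 0 := by
    intro i hi hc
    rw [ZMod.intCast_zmod_eq_zero_iff_dvd] at hc
    exact hTq i (hmem i hi).1 (by exact_mod_cast hc)
  -- the final step
  have hfin : ∀ i ∈ T2, ∀ j ∈ T2, i < j → ∀ k : ℕ, ∀ v : ZMod q, v ≠ 0 →
      R q (((a i : ℤ) + a j) ^ (m + 1) - 4 ^ (m + 1)) k v →
      R q (((a i : ℤ) * a j) ^ (m + 1) - 4 ^ (m + 1)) k (2 * v) →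
      ∃ i ∈ T, ∃ j ∈ T, i < j ∧ a i ≡ a j [MOD 8] ∧ ¬ q ∣ a i + a j ∧
      (fl q (dg q (a i * a j)) ↔ ¬ fl q (dg q (a i + a j))) := by
    intro i hi j hj hij k v hv hs hp
    have gi := hge i
    have gj := hge j
    have i4 := (hmem i hi).2
    have j4 := (hmem j hj).2
    refine ⟨i, (hmem i hi).1, j, (hmem j hj).1, hij, (hcong i hi j hj).of_mul_right q, ?_, ?_⟩
    · intro hc
      have h6 : a i ≡ a j [MOD q] := (hcong i hi j hj).of_mul_left 8
      have h7 : ((a i : ℕ) : ZMod q) = a j := (ZMod.natCast_eq_natCast_iff _ _ _).2 h6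
      have h8 : ((a i + a j : ℕ) : ZMod q) = 0 := (ZMod.natCast_eq_zero_iff _ _).2 hc
      push_cast at h8
      rw [h7] at h8
      have h9 : (2 : ZMod q) * a j = 0 := by linear_combination h8
      rcases mul_eq_zero.1 h9 with h | h
      · exact two_ne hqp h2 h
      · exact hnz j hj (by exact_mod_cast h)
    · have d1 : dg q (a i + a j) = v := by
        apply R_dg hqp (by omega) _ hv
        · exact k
        · rw [hqm]
          push_cast
          exact hs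
      have d2 : dg q (a i * a j) = 2 * v := by
        apply R_dg hqp _ _ (mul_ne_zero (two_ne hqp h2) hv)
        · exact k
        · calc 4 ≤ a i * 1 := by omega
            _ ≤ a i * a j := Nat.mul_le_mul_left _ (by omega)
        · rw [hqm]
          push_cast
          exact hp
      rw [d1, d2]
      exact fl_flip hq hv
  by_cases hcase : ∃ k, {i | i ∈ T2 ∧ kk i = k}.Infinite
  · obtain ⟨k, hk⟩ := hcase
    obtain ⟨r', -, hT3⟩ := pigeon hk (fun i => a i % q ^ (k + 1)) (q ^ (k + 1))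
      (fun i _ => Nat.mod_lt _ (pow_pos hqp.pos _))
    obtain ⟨i, hi⟩ := hT3.nonempty
    obtain ⟨j, hj, hij⟩ := hT3.exists_gt i
    have hd : (q : ℤ) ^ (k + 1) ∣ (a j : ℤ) - a i := by
      have h6 : a i ≡ a j [MOD q ^ (k + 1)] := hi.2.trans hj.2.symm
      have := Nat.modEq_iff_dvd.1 h6
      exact_mod_cast this
    obtain ⟨hu, -, hR⟩ := hku i (hmem i hi.1.1)
    rw [hi.1.2] at hR
    obtain ⟨hs, hp⟩ := pairA hqp hm h2 (hnz i hi.1.1) hR hd
    exact hfin i hi.1.1 j hj.1.1 hij k _ hu hs hp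
  · push Not at hcase
    obtain ⟨i, hi⟩ := hT2.nonempty
    have hF : {j | j ∈ T2 ∧ kk j ≤ kk i}.Finite := by
      by_contra hinf
      obtain ⟨v, -, hv⟩ := pigeon (T := {j | j ∈ T2 ∧ kk j ≤ kk i}) hinf kk (kk i + 1)
        (fun j hj => Nat.lt_succ_of_le hj.2)
      apply hv
      refine Set.Finite.subset (hcase v) ?_
      intro j hj
      exact ⟨hj.1.1, hj.2⟩
    obtain ⟨j, hj, hij⟩ := (hT2.sdiff hF).exists_gt i
    have hjT : j ∈ T2 := hj.1
    have hlt : kk i + 1 ≤ kk j := by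
      by_contra hc
      exact hj.2 ⟨hjT, by omega⟩
    obtain ⟨hu, -, hR⟩ := hku i (hmem i hi)
    obtain ⟨-, -, w, hw, -⟩ := hku j (hmem j hjT)
    have hB : (q : ℤ) ^ (kk i + 1) ∣ (a j : ℤ) ^ (m + 1) - 2 ^ (m + 1) := by
      rw [hw]
      exact Dvd.dvd.mul_right (pow_dvd_pow _ hlt) _
    have hxy : (q : ℤ) ∣ (a i : ℤ) - a j := by
      have h6 : a j ≡ a i [MOD q] := (hcong j hjT i hi).of_mul_left 8
      exact Nat.modEq_iff_dvd.1 h6
    obtain ⟨v, hv1, hs, hp⟩ := pairB hqp hm h2 (hnz j hjT) hxy hR hu hB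
    have hv0 : v ≠ 0 := by
      rintro rfl
      apply hu
      rw [← hv1, mul_zero]
    exact hfin i hi j hjT hij (kk i) v hv0 hs (by rw [hv1]; exact hp)

theorem eq_four_mul {n : ℕ} (hn : vv n = 2) (ho : Odd (oddPart n)) : n % 8 = 4 := by
  have h1 := Pool.Agent.Results.MP_60922f_co.FourClasses.eq_mul n
  rw [hn] at h1
  obtain ⟨t, ht⟩ := ho
  rw [ht] at h1
  omega

theorem main {a : ℕ → ℕ} (ha : StrictMono a)
    (hmono : (∀ i j, i < j → a i + a j ∈ Col ∧ a i * a j ∈ Col) ∨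
      (∀ i j, i < j → a i + a j ∉ Col ∧ a i * a j ∉ Col)) :
    (∀ᶠ i in atTop, 4 ∣ a i) ∧ ∀ q, EvenOrder q → ∀ᶠ i in atTop, q ∣ a i := by
  have hiff : ∀ i j, i < j → (a i + a j ∈ Col ↔ a i * a j ∈ Col) := by
    intro i j hij
    rcases hmono with h | h
    · exact ⟨fun _ => (h i j hij).2, fun _ => (h i j hij).1⟩
    · exact ⟨fun h' => absurd h' (h i j hij).1, fun h' => absurd h' (h i j hij).2⟩
  have hge : ∀ i, i ≤ a i := fun i => ha.le_apply
  have heven : ∀ᶠ i in atTop, 2 ∣ a i := by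
    by_contra hcon
    have hinf : {i | ¬ 2 ∣ a i}.Infinite := by
      rw [← Nat.frequently_atTop_iff_infinite]
      exact Filter.not_eventually.1 hcon
    obtain ⟨r, -, hT⟩ := pigeon hinf (fun i => a i % 4) 4 (fun i _ => Nat.mod_lt _ (by norm_num))
    obtain ⟨i, hi⟩ := hT.nonempty
    obtain ⟨j, hj, hij⟩ := hT.exists_gt i
    have hi1 : ¬ 2 ∣ a i := hi.1
    have hj1 : ¬ 2 ∣ a j := hj.1
    have hi2 : a i % 4 = r := hi.2
    have hj2 : a j % 4 = r := hj.2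
    have hprod : a i * a j ∈ Col := by
      left
      have h1 : Odd (a i) := Nat.not_even_iff_odd.1 (fun h => hi1 (even_iff_two_dvd.1 h))
      have h2 : Odd (a j) := Nat.not_even_iff_odd.1 (fun h => hj1 (even_iff_two_dvd.1 h))
      exact Nat.odd_iff.1 (h1.mul h2)
    rcases (hiff i j hij).2 hprod with h | h | h
    · omega
    · omega
    · have := h.1
      omega
  have hfour : ∀ᶠ i in atTop, 4 ∣ a i := by
    by_contra hcon
    have hinf : {i | ¬ 4 ∣ a i ∧ (2 ∣ a i ∧ 3 ≤ i)}.Infinite := by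
      rw [← Nat.frequently_atTop_iff_infinite]
      exact (Filter.not_eventually.1 hcon).and_eventually (heven.and (eventually_ge_atTop 3))
    -- shift so that no term vanishes
    set b : ℕ → ℕ := fun i => a i + (if i = 0 then 1 else 0) with hb
    have hb0 : ∀ i, b i ≠ 0 := by
      intro i
      have := hge i
      simp only [hb]
      split_ifs with h <;> omega
    have hbi : ∀ i, 3 ≤ i → b i = a i := by
      intro i hi
      simp only [hb]
      rw [if_neg (by omega), add_zero]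
    have hV : ∀ i ∈ {i | ¬ 4 ∣ a i ∧ (2 ∣ a i ∧ 3 ≤ i)}, vv (b i) = 1 := by
      rintro i ⟨h1, h2, h3⟩
      rw [hbi i h3]
      obtain ⟨t, ht⟩ := h2
      have hto : Odd t := by
        rw [Nat.odd_iff]
        omega
      have := Pool.Agent.Results.MP_60922f_co.FourClasses.vv_two_pow_mul 1 hto
      rwa [pow_one, ← ht] at this
    have hm : ∀ i ∈ {i | ¬ 4 ∣ a i ∧ (2 ∣ a i ∧ 3 ≤ i)}, oddPart (b i) ≠ 1 := by
      rintro i hi ho
      have h1 := Pool.Agent.Results.MP_60922f_co.FourClasses.eq_mul (b i)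
      rw [hV i hi, ho, hbi i hi.2.2] at h1
      have := hge i
      have := hi.2.2
      omega
    obtain ⟨T', hT'1, hT'2, hT'3⟩ := constV hb0 hinf hV hm
    obtain ⟨i, hi⟩ := hT'2.nonempty
    obtain ⟨j, hj1, hj2⟩ := ((Nat.frequently_atTop_iff_infinite.2 hT'2).and_eventually
      ((hT'3 i hi).and (eventually_gt_atTop i))).exists
    have hij : i < j := hj2.2
    have hG := hj2.1 hj1
    have hi3 : 3 ≤ i := (hT'1 hi).2.2
    have hj3 : 3 ≤ j := (hT'1 hj1).2.2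
    rw [hbi i hi3, hbi j hj3] at hG
    obtain ⟨-, -, f3, f4, f5⟩ := hG.facts
    have gi := hge i
    have gj := hge j
    have s8 : (a i + a j) % 8 = 4 := eq_four_mul f3
      (Pool.Agent.Results.MP_60922f_co.FourClasses.odd_oddPart (by omega))
    have p8 : (a i * a j) % 8 = 4 := eq_four_mul f4
      (Pool.Agent.Results.MP_60922f_co.FourClasses.odd_oddPart
        (mul_ne_zero (by omega) (by omega)))
    have hs : a i + a j ∈ Col ↔ hh (a i + a j) % 2 = 0 := by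
      constructor
      · rintro (h | h | h)
        · omega
        · exact h.2
        · have := h.1
          omega
      · intro h
        exact Or.inr (Or.inl ⟨s8, h⟩)
    have hp : a i * a j ∈ Col ↔ hh (a i * a j) % 2 = 0 := by
      constructor
      · rintro (h | h | h)
        · omega
        · exact h.2
        · have := h.1
          omega
      · intro h
        exact Or.inr (Or.inl ⟨p8, h⟩)
    have h1 := hiff i j hij
    rw [hs, hp, f5] at h1
    omega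
  refine ⟨hfour, ?_⟩
  by_contra hcon
  push Not at hcon
  classical
  have hex : ∃ q, EvenOrder q ∧ ¬ ∀ᶠ i in atTop, q ∣ a i := by
    obtain ⟨q, h1, h2⟩ := hcon
    exact ⟨q, h1, Filter.not_eventually.2 h2⟩
  have hqs := Nat.find_spec hex
  have hmin : ∀ r, r < Nat.find hex → EvenOrder r → ∀ᶠ i in atTop, r ∣ a i := by
    intro r hr hgr
    by_contra hc
    exact Nat.find_min hex hr ⟨hgr, hc⟩
  generalize Nat.find hex = q at hqs hmin
  obtain ⟨hq, hnot⟩ := hqs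
  have hall : ∀ᶠ i in atTop, ∀ r ∈ {r | r < q}, EvenOrder r → r ∣ a i := by
    rw [Filter.eventually_all_finite (Set.finite_lt_nat q)]
    intro r hr
    by_cases hg : EvenOrder r
    · filter_upwards [hmin r hr hg] with i hi _
      exact hi
    · exact Filter.Eventually.of_forall (fun i h => absurd h hg)
  have hinf : {i | ¬ q ∣ a i ∧ (4 ∣ a i ∧ ∀ r ∈ {r | r < q}, EvenOrder r → r ∣ a i)}.Infinite := by
    rw [← Nat.frequently_atTop_iff_infinite]
    exact (Filter.not_eventually.1 hnot).and_eventually (hfour.and hall)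
  obtain ⟨i, hi, j, hj, hij, hmod, hsum, hflip⟩ := pair_exists hq hinf ha (fun i hi => hi.1)
  obtain ⟨hi1, hi2, hi3⟩ := hi
  obtain ⟨hj1, hj2, hj3⟩ := hj
  have hP1 : PP (a i + a j) = q := PP_eq hq hsum (fun r hr hg =>
    dvd_add (hi3 r hr hg) (hj3 r hr hg))
  have hP2 : PP (a i * a j) = q := PP_eq hq
    (fun hc => ((hq.1.dvd_mul).1 hc).elim hi1 hj1)
    (fun r hr hg => Dvd.dvd.mul_right (hi3 r hr hg) _)
  have hm8 : a i % 8 = a j % 8 := hmod
  have h8s : 8 ∣ a i + a j := by omega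
  have h8p : 8 ∣ a i * a j := (by norm_num : 8 ∣ 4 * 4).trans (mul_dvd_mul hi2 hj2)
  have hs : a i + a j ∈ Col ↔ fl q (dg q (a i + a j)) := by
    constructor
    · rintro (h | h | h)
      · omega
      · omega
      · have := h.2
        rwa [hP1] at this
    · intro h
      right
      right
      refine ⟨h8s, ?_⟩
      rw [hP1]
      exact h
  have hp : a i * a j ∈ Col ↔ fl q (dg q (a i * a j)) := by
    constructor
    · rintro (h | h | h)
      · omega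
      · omega
      · have := h.2
        rwa [hP2] at this
    · intro h
      right
      right
      refine ⟨h8p, ?_⟩
      rw [hP2]
      exact h
  have h1 := hiff i j hij
  rw [hs, hp] at h1
  tauto

theorem even_order_of_mod {q : ℕ} (hq : q.Prime) (h : q % 8 = 3 ∨ q % 8 = 5) :
    Even (orderOf (2 : ZMod q)) := by
  have : Fact q.Prime := ⟨hq⟩
  by_contra hc
  rw [Nat.not_even_iff_odd] at hc
  obtain ⟨t, ht⟩ := hc
  have h2 : IsSquare (2 : ZMod q) := by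
    refine ⟨2 ^ (t + 1), ?_⟩
    have h3 : (2 : ZMod q) ^ (2 * t + 1) = 1 := by
      rw [← ht]
      exact pow_orderOf_eq_one 2
    calc (2 : ZMod q) = 2 ^ (2 * t + 1) * 2 := by rw [h3, one_mul]
      _ = 2 ^ (t + 1) * 2 ^ (t + 1) := by ring
  rw [ZMod.exists_sq_eq_two_iff (by omega)] at h2
  omega

/-- There is a partition of `ℕ` into two classes such that every infinite sequence whose pairwise
sums and pairwise products lie in one class is eventually divisible by `4` and by every odd prime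
modulo which `2` has even order, in particular by every prime congruent to `3` or `5` modulo
`8`. -/
theorem result : ∃ C : Set ℕ, ∀ a : ℕ → ℕ, StrictMono a → 0 < a 0 →
    ((∀ i j, i < j → a i + a j ∈ C ∧ a i * a j ∈ C) ∨
      (∀ i j, i < j → a i + a j ∉ C ∧ a i * a j ∉ C)) →
    (∀ᶠ i in atTop, 4 ∣ a i) ∧
    (∀ q : ℕ, q.Prime → q ≠ 2 → Even (orderOf (2 : ZMod q)) → ∀ᶠ i in atTop, q ∣ a i) ∧
    (∀ q : ℕ, q.Prime → (q % 8 = 3 ∨ q % 8 = 5) → ∀ᶠ i in atTop, q ∣ a i) := by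
  refine ⟨Col, ?_⟩
  intro a ha _ hmono
  obtain ⟨h1, h2⟩ := main ha hmono
  refine ⟨h1, fun q hq hq2 h => h2 q ⟨hq, hq2, h⟩, fun q hq h => h2 q ⟨hq, ?_, ?_⟩⟩
  · omega
  · exact even_order_of_mod hq h

end Pool.Agent.Results.MP_60922f_co.EvenOrderPrimes
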