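import Mathlib
import Pool.Graph.R_seed8.Results.MP_60922f_co.SparsePrimeColourings

set_option autoImplicit false

namespace Pool.Agent.Results.MP_60922f_co.MultiplicativeColourings

open Filter

theorem ultra_const {G : Type*} [Finite G] (F : ℕ → G) :
    ∃ s, ∀ᶠ j in (hyperfilter ℕ : Filter ℕ), F j = s := by
  by_contra hcon
  push Not at hcon
  have h1 : ∀ s, ∀ᶠ j in (hyperfilter ℕ : Filter ℕ), F j ≠ s := fun s => hcon s
  obtain ⟨j, hj⟩ := (eventually_all.2 h1).exists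
  exact hj (F j) rfl

/-- Ramsey's theorem for pairs together with the pigeonhole principle. -/
theorem ramsey {G : Type*} [Finite G] (F : ℕ → ℕ → G) (H : ℕ → G) :
    ∃ φ : ℕ → ℕ, StrictMono φ ∧ ∃ s g, (∀ i, H (φ i) = g) ∧
      ∀ i j, i < j → F (φ i) (φ j) = s := by
  choose t ht using fun i => ultra_const (F i)
  obtain ⟨s, hs⟩ := ultra_const t
  obtain ⟨g, hg⟩ := ultra_const H
  obtain ⟨φ, hφ1, hφ2⟩ := exists_seq_of_forall_finset_exists
    (fun i => t i = s ∧ H i = g) (fun i j => i < j ∧ F i j = s) (by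
      intro A hA
      have h1 : ∀ᶠ y in (hyperfilter ℕ : Filter ℕ), ∀ x ∈ A, x < y ∧ F x y = s := by
        rw [Filter.eventually_all_finset]
        intro x hx
        have h2 : ∀ᶠ y in (hyperfilter ℕ : Filter ℕ), x < y :=
          Nat.hyperfilter_le_atTop (eventually_gt_atTop x)
        filter_upwards [h2, ht x] with y h3 h4
        exact ⟨h3, h4.trans (hA x hx).1⟩
      obtain ⟨y, hy1, hy2, hy3⟩ := (h1.and (hs.and hg)).exists
      exact ⟨y, ⟨hy2, hy3⟩, hy1⟩)
  exact ⟨φ, fun i j hij => (hφ2 i j hij).1, s, g, fun i => (hφ1 i).2,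
    fun i j hij => (hφ2 i j hij).2⟩

/-- The multipliers: positive integers congruent to `1` modulo `M` and free of primes of `S`. -/
def UU (S : Set ℕ) (M : ℕ) (u : ℕ) : Prop := 0 < u ∧ u ≡ 1 [MOD M] ∧ ∀ p ∈ S, ¬ p ∣ u

theorem UU_one {S : Set ℕ} (hS : ∀ p ∈ S, p.Prime) (M : ℕ) : UU S M 1 :=
  ⟨one_pos, rfl, fun p hp h => (hS p hp).one_lt.ne' (Nat.dvd_one.1 h)⟩

theorem UU_mul {S : Set ℕ} (hS : ∀ p ∈ S, p.Prime) {M u v : ℕ} (hu : UU S M u) (hv : UU S M v) :
    UU S M (u * v) := by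
  refine ⟨Nat.mul_pos hu.1 hv.1, ?_, ?_⟩
  · have := hu.2.1.mul hv.2.1
    rwa [one_mul] at this
  · intro p hp h
    rcases (hS p hp).dvd_mul.1 h with h | h
    · exact hu.2.2 p hp h
    · exact hv.2.2 p hp h

theorem UU_pow {S : Set ℕ} (hS : ∀ p ∈ S, p.Prime) {M u : ℕ} (hu : UU S M u) (k : ℕ) :
    UU S M (u ^ k) := by
  induction k with
  | zero => simpa using UU_one hS M
  | succ k ih =>
    rw [pow_succ]
    exact UU_mul hS ih hu

/-- Equivalence up to multipliers. -/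
def EE (S : Set ℕ) (M : ℕ) (n m : ℕ) : Prop := ∃ u v, UU S M u ∧ UU S M v ∧ n * u = m * v

theorem EE_refl {S : Set ℕ} (hS : ∀ p ∈ S, p.Prime) (M n : ℕ) : EE S M n n :=
  ⟨1, 1, UU_one hS M, UU_one hS M, rfl⟩

theorem EE_symm {S : Set ℕ} {M n m : ℕ} (h : EE S M n m) : EE S M m n := by
  obtain ⟨u, v, hu, hv, e⟩ := h
  exact ⟨v, u, hv, hu, e.symm⟩

theorem EE_trans {S : Set ℕ} (hS : ∀ p ∈ S, p.Prime) {M n m k : ℕ} (h : EE S M n m)
    (h' : EE S M m k) : EE S M n k := by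
  obtain ⟨u, v, hu, hv, e⟩ := h
  obtain ⟨u', v', hu', hv', e'⟩ := h'
  refine ⟨u * u', v' * v, UU_mul hS hu hu', UU_mul hS hv' hv, ?_⟩
  calc n * (u * u') = (n * u) * u' := by ring
    _ = (m * u') * v := by rw [e]; ring
    _ = k * (v' * v) := by rw [e']; ring

theorem EE_mul {S : Set ℕ} (hS : ∀ p ∈ S, p.Prime) {M x : ℕ} (n : ℕ) (hx : UU S M x) :
    EE S M (x * n) n := ⟨1, x, UU_one hS M, hx, by ring⟩

theorem chi_pow {G : Type*} [CommGroup G] {χ : ℕ → G}
    (hχ : ∀ m n, 0 < m → 0 < n → χ (m * n) = χ m * χ n) {u : ℕ} (hu : 0 < u) (k : ℕ) :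
    χ (u ^ k) = χ u ^ k := by
  induction k with
  | zero =>
    have h := hχ 1 1 one_pos one_pos
    rw [one_mul] at h
    rw [pow_zero, pow_zero]
    exact (mul_eq_left.1 h.symm)
  | succ k ih => rw [pow_succ, hχ _ _ (pow_pos hu k) hu, ih, pow_succ]

/-- Let `S` be a set of primes with convergent sum of reciprocals, `M ≥ 1`, and `χ` a completely
multiplicative map from the positive integers to a finite abelian group.  Every colouring `c` (any
set of colours) with `c (T u) = c T` whenever `u ≡ 1 (mod M)` has no prime factor in `S` and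
`χ u = 1` admits an infinite sequence all of whose pairwise sums and pairwise products have one
colour. -/
theorem result (S : Set ℕ) (hS : ∀ p ∈ S, p.Prime)
    (hsum : Summable (fun p : S => (1 : ℝ) / (p : ℕ))) (M : ℕ) (hM : 0 < M)
    {G : Type*} [CommGroup G] [Finite G] (χ : ℕ → G)
    (hχ : ∀ m n, 0 < m → 0 < n → χ (m * n) = χ m * χ n) {κ : Type*} (c : ℕ → κ)
    (hc : ∀ T u : ℕ, 0 < T → 0 < u → u ≡ 1 [MOD M] → (∀ p ∈ S, ¬ p ∣ u) → χ u = 1 →
      c (T * u) = c T) :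
    ∃ a : ℕ → ℕ, StrictMono a ∧ 0 < a 0 ∧
      ∃ k : κ, ∀ i j, i < j → c (a i + a j) = k ∧ c (a i * a j) = k := by
  -- the library theorem applied to the universal colouring
  let st : Setoid ℕ := ⟨EE S M, EE_refl hS M, EE_symm, EE_trans hS⟩
  obtain ⟨f, hf, hf0, hff⟩ :=
    Pool.Agent.Results.MP_60922f_co.SparsePrimeColourings.result S hS hsum M hM
      (κ := Quotient st) (fun n => Quotient.mk st n) (by
        intro T u hT hu h1 h2
        apply Quotient.sound
        change EE S M (T * u) T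
        rw [mul_comm]
        exact EE_mul hS T ⟨hu, h1, h2⟩)
  have hE : ∀ i j, EE S M (f i + f j) 4 ∧ EE S M (f i * f j) 4 := fun i j =>
    ⟨Quotient.exact (hff i j).1, Quotient.exact (hff i j).2⟩
  -- the colour depends only on the class and the value of `χ`
  have hN : 0 < Nat.card G := Nat.card_pos
  have hN1 : Nat.card G = (Nat.card G - 1) + 1 := by omega
  have key : ∀ n m, 0 < n → 0 < m → EE S M n m → χ n = χ m → c n = c m := by
    rintro n m hn hm ⟨A, B, hA, hB, e⟩ hnm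
    have h1 : χ A = χ B := by
      have h2 : χ (n * A) = χ (m * B) := by rw [e]
      rw [hχ n A hn hA.1, hχ m B hm hB.1, hnm] at h2
      exact mul_left_cancel h2
    have h3 : c (n * A ^ Nat.card G) = c n := by
      have hU := UU_pow hS hA (Nat.card G)
      apply hc n _ hn hU.1 hU.2.1 hU.2.2
      rw [chi_pow hχ hA.1, pow_card_eq_one']
    have h4 : c (m * (B * A ^ (Nat.card G - 1))) = c m := by
      have hU := UU_mul hS hB (UU_pow hS hA (Nat.card G - 1))
      apply hc m _ hm hU.1 hU.2.1 hU.2.2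
      rw [hχ _ _ hB.1 (pow_pos hA.1 _), chi_pow hχ hA.1, ← h1, ← pow_succ', ← hN1,
        pow_card_eq_one']
    rw [← h3, ← h4]
    congr 1
    calc n * A ^ Nat.card G = (n * A) * A ^ (Nat.card G - 1) := by
          conv_lhs => rw [hN1, pow_succ]
          ring
      _ = m * (B * A ^ (Nat.card G - 1)) := by rw [e]; ring
  obtain ⟨φ, hφ, s, g, hg, hs⟩ := ramsey (fun i j => χ (f i + f j)) (fun i => χ (f i))
  -- the scaling factor
  obtain ⟨A, B, hA, hB, e⟩ := EE_trans hS (hE (φ 0) (φ 1)).1 (EE_symm (hE (φ 0) (φ 1)).2)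
  set x := B * A ^ (Nat.card G - 1) with hx
  have hxU : UU S M x := UU_mul hS hB (UU_pow hS hA _)
  have hchi : χ x * (g * g) = s := by
    have h2 : χ ((f (φ 0) + f (φ 1)) * A) = χ (f (φ 0) * f (φ 1) * B) := by rw [e]
    rw [hχ _ _ (by have := hf0 (φ 0); omega) hA.1, hχ _ _ (Nat.mul_pos (hf0 _) (hf0 _)) hB.1,
      hχ _ _ (hf0 _) (hf0 _), hg, hg, hs 0 1 (by norm_num)] at h2
    have h3 : χ x = χ B * (χ A) ^ (Nat.card G - 1) := by
      rw [hx, hχ _ _ hB.1 (pow_pos hA.1 _), chi_pow hχ hA.1]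
    calc χ x * (g * g) = (g * g * χ B) * χ A ^ (Nat.card G - 1) := by
          rw [h3, mul_comm, ← mul_assoc]
      _ = s * (χ A * χ A ^ (Nat.card G - 1)) := by rw [← h2, mul_assoc]
      _ = s := by rw [← pow_succ', ← hN1, pow_card_eq_one', mul_one]
  refine ⟨fun i => x * f (φ i), ?_, ?_, c (x * (f (φ 0) + f (φ 1))), ?_⟩
  · intro i j hij
    exact Nat.mul_lt_mul_of_pos_left (hf (hφ hij)) hxU.1
  · exact Nat.mul_pos hxU.1 (hf0 _)
  · intro i j hij
    have hi := hf0 (φ i)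
    have hj := hf0 (φ j)
    have h0 := hf0 (φ 0)
    have hbase : EE S M (x * (f (φ 0) + f (φ 1))) 4 :=
      EE_trans hS (EE_mul hS _ hxU) (hE (φ 0) (φ 1)).1
    have hpos0 : 0 < x * (f (φ 0) + f (φ 1)) := Nat.mul_pos hxU.1 (by omega)
    have hchi0 : χ (x * (f (φ 0) + f (φ 1))) = χ x * s := by
      rw [hχ _ _ hxU.1 (by omega), hs 0 1 (by norm_num)]
    constructor
    · have e1 : x * f (φ i) + x * f (φ j) = x * (f (φ i) + f (φ j)) := by ring
      change c (x * f (φ i) + x * f (φ j)) = _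
      rw [e1]
      apply key _ _ (Nat.mul_pos hxU.1 (by omega)) hpos0
      · exact EE_trans hS (EE_trans hS (EE_mul hS _ hxU) (hE (φ i) (φ j)).1) (EE_symm hbase)
      · rw [hchi0, hχ _ _ hxU.1 (by omega), hs i j hij]
    · have e1 : x * f (φ i) * (x * f (φ j)) = x * (x * (f (φ i) * f (φ j))) := by ring
      change c (x * f (φ i) * (x * f (φ j))) = _
      have hp : 0 < f (φ i) * f (φ j) := Nat.mul_pos hi hj
      rw [e1]
      apply key _ _ (Nat.mul_pos hxU.1 (Nat.mul_pos hxU.1 hp)) hpos0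
      · exact EE_trans hS (EE_trans hS (EE_mul hS _ hxU) (EE_trans hS (EE_mul hS _ hxU)
          (hE (φ i) (φ j)).2)) (EE_symm hbase)
      · rw [hchi0, hχ _ _ hxU.1 (Nat.mul_pos hxU.1 hp), hχ _ _ hxU.1 hp, hχ _ _ hi hj, hg, hg,
          hchi]

end Pool.Agent.Results.MP_60922f_co.MultiplicativeColourings
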